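import Pool.Agent.MVD.Stmts

/-!
# MVD, row MIR: the mirror image (author helper81)
-/

set_option autoImplicit false

open Pool.Agent.Helper14_MV Pool.Agent.Helper2_MV

namespace Pool.Agent.MVD.H81

/-- the exchange of the letters `0`, `3` and `2`, `5` -/
def sw (i : ℕ) : List ℕ :=
  if i = 0 then [3] else if i = 3 then [0] else if i = 2 then [5] else if i = 5 then [2] else [i]

theorem rr_mir (β : FIC) (l l' : List ℕ) :
    RR (Pool.Agent.MVD.mir β) l l' ↔ RR β l.reverse l'.reverse := Iff.rfl

theorem mult_rev {c w : List ℕ} (h : Mult c w) {c' w' : List ℕ} (hc : c' = c.reverse)
    (hw : w' = w.reverse) : Mult c' w' := by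
  subst hc
  subst hw
  intro a ha
  rw [List.count_reverse]
  exact h a (List.mem_reverse.1 ha)

theorem mir : MirStmt := by
  intro β
  refine ⟨fun l l' => rr_mir β l l', op_modF, ?_, ?_, ?_, ?_, ?_, ?_, ?_, ?_, ?_, ?_, ?_, ?_, ?_, ?_⟩
  · intro h l hl
    have h1 := h l.reverse hl
    have h2 := congrArg List.reverse h1
    rw [List.reverse_reverse] at h2
    exact h2
  · intro h l hl
    have h1 := h l.reverse hl
    have h2 := congrArg List.reverse h1
    rw [List.reverse_reverse] at h2
    exact h2
  · constructor
    · intro h
      exact RR.sub (β := β) sw h
    · intro h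
      exact RR.sub (β := β) sw h
  · constructor
    · intro h
      exact RR.sub (β := β) sw h
    · intro h
      exact RR.sub (β := β) sw h
  · constructor
    · intro h
      exact RR.sub (β := β) sw h
    · intro h
      exact RR.sub (β := β) sw h
  · constructor
    · intro h
      exact RR.symm (β := β) h
    · intro h
      exact RR.symm (β := β) h
  · exact Iff.rfl
  · exact Iff.rfl
  · exact Iff.rfl
  · exact Iff.rfl
  · constructor
    · intro h p q c r x y hm
      have h1 := h r.reverse q.reverse c.reverse p.reverse y x
        (mult_rev hm rfl (by simp [List.append_assoc]))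
      rw [rr_mir] at h1
      simpa [List.append_assoc] using h1
    · intro h p q c r x y hm
      rw [rr_mir]
      have h1 := h r.reverse q.reverse c.reverse p.reverse y x
        (mult_rev hm rfl (by simp [List.append_assoc]))
      simpa [List.append_assoc] using h1
  · constructor
    · intro h p q c r x y hm
      have h1 := h r.reverse q.reverse c.reverse p.reverse y x
        (mult_rev hm rfl (by simp [List.append_assoc]))
      rw [rr_mir] at h1
      simpa [List.append_assoc] using h1
    · intro h p q c r x y hm
      rw [rr_mir]
      have h1 := h r.reverse q.reverse c.reverse p.reverse y x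
        (mult_rev hm rfl (by simp [List.append_assoc]))
      simpa [List.append_assoc] using h1
  · constructor
    · intro h p c q x y hxy hx hm
      have h1 := h q.reverse c.reverse p.reverse x y hxy (by
        simp only [List.mem_append, List.mem_reverse] at hx ⊢
        tauto) (mult_rev hm rfl (by simp [List.append_assoc]))
      rw [rr_mir] at h1
      simpa [List.append_assoc] using h1
    · intro h p c q x y hxy hx hm
      rw [rr_mir]
      have h1 := h q.reverse c.reverse p.reverse x y hxy (by
        simp only [List.mem_append, List.mem_reverse] at hx ⊢
        tauto) (mult_rev hm rfl (by simp [List.append_assoc]))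
      simpa [List.append_assoc] using h1
  · constructor
    · intro h p c q x y hxy hx hm
      have h1 := h q.reverse c.reverse p.reverse x y hxy (by
        simp only [List.mem_append, List.mem_reverse] at hx ⊢
        tauto) (mult_rev hm rfl (by simp [List.append_assoc]))
      rw [rr_mir] at h1
      simpa [List.append_assoc] using h1
    · intro h p c q x y hxy hx hm
      rw [rr_mir]
      have h1 := h q.reverse c.reverse p.reverse x y hxy (by
        simp only [List.mem_append, List.mem_reverse] at hx ⊢
        tauto) (mult_rev hm rfl (by simp [List.append_assoc]))
      simpa [List.append_assoc] using h1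

end Pool.Agent.MVD.H81
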